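import Mathlib
import Pool.Agent.H482R3.EA.Stm

set_option autoImplicit false

namespace Pool.Agent.H364R2.EA

open Pool.Agent.H482R3.EA

section gen

variable {α β : Type} [Primcodable α] [Primcodable β]

theorem cp_comp {p : β → Prop} {f : α → β} (hp : ComputablePred p) (hf : Computable f) :
    ComputablePred (fun x => p (f x)) := by
  obtain ⟨h1, h2⟩ := hp
  exact ⟨fun x => h1 (f x), h2.comp hf⟩

theorem cp_eq {f g : α → β} (hf : Computable f) (hg : Computable g) :
    ComputablePred (fun x => f x = g x) := by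
  classical
  have h : PrimrecRel (@Eq β) := Primrec.eq
  have h1 : ComputablePred (fun x : β × β => x.1 = x.2) := by
    obtain ⟨h2, h3⟩ := h
    exact ⟨h2, h3.to_comp⟩
  exact cp_comp h1 (hf.pair hg)

theorem cp_iff {p q : α → Prop} (hp : ComputablePred p) (h : ∀ x, p x ↔ q x) :
    ComputablePred q := hp.of_eq h

theorem cp_not {p : α → Prop} (hp : ComputablePred p) : ComputablePred (fun x => ¬ p x) := by
  obtain ⟨h1, h2⟩ := hp
  refine ⟨fun x => inferInstance, ?_⟩
  exact ((Primrec.not.to_comp).comp h2).of_eq fun x => by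
    by_cases h : p x <;> simp [h]

end gen

section fields

variable {V Wt : Type}

/-- the kind of a state -/
def kd (s : Option (Syl V Wt)) : ℕ :=
  Option.casesOn s 0 (fun x => Sum.casesOn x (fun _ => 1)
    (fun y => Sum.casesOn y (fun _ => 2) (fun _ => 3)))

/-- the word over `W` -/
def gO (s : Option (Syl V Wt)) : W Wt :=
  Option.casesOn s [] (fun x => Sum.casesOn x (fun z => z.1)
    (fun y => Sum.casesOn y (fun z => z.1) (fun z => z.1)))

/-- the vertex of `V` -/
def vO (s : Option (Syl V Wt)) : Option V :=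
  Option.casesOn s none (fun x => Sum.casesOn x (fun z => some z.2.1)
    (fun y => Sum.casesOn y (fun _ => none) (fun z => some z.2.1)))

/-- the vertex of `W` -/
def wO (s : Option (Syl V Wt)) : Option Wt :=
  Option.casesOn s none (fun x => Sum.casesOn x (fun _ => none)
    (fun y => Sum.casesOn y (fun _ => none) (fun z => some z.2.2.1)))

variable [Primcodable V] [Primcodable Wt]

theorem kd_prim : Primrec (kd : Option (Syl V Wt) → ℕ) := by
  unfold kd
  refine Primrec.option_casesOn Primrec.id (Primrec.const 0) ?_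
  refine Primrec.sumCasesOn Primrec.snd ((Primrec.const 1).to₂) ?_
  refine Primrec.sumCasesOn Primrec.snd ((Primrec.const 2).to₂) ((Primrec.const 3).to₂)

theorem gO_prim : Primrec (gO : Option (Syl V Wt) → W Wt) := by
  unfold gO
  refine Primrec.option_casesOn Primrec.id (Primrec.const []) ?_
  refine Primrec.sumCasesOn Primrec.snd ((Primrec.fst.comp Primrec.snd).to₂) ?_
  refine Primrec.sumCasesOn Primrec.snd ((Primrec.fst.comp Primrec.snd).to₂)
    ((Primrec.fst.comp Primrec.snd).to₂)

theorem vO_prim : Primrec (vO : Option (Syl V Wt) → Option V) := by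
  unfold vO
  refine Primrec.option_casesOn Primrec.id (Primrec.const none) ?_
  refine Primrec.sumCasesOn Primrec.snd ((Primrec.option_some.comp
    (Primrec.fst.comp (Primrec.snd.comp Primrec.snd))).to₂) ?_
  refine Primrec.sumCasesOn Primrec.snd ((Primrec.const none).to₂)
    ((Primrec.option_some.comp (Primrec.fst.comp (Primrec.snd.comp Primrec.snd))).to₂)

theorem wO_prim : Primrec (wO : Option (Syl V Wt) → Option Wt) := by
  unfold wO
  refine Primrec.option_casesOn Primrec.id (Primrec.const none) ?_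
  refine Primrec.sumCasesOn Primrec.snd ((Primrec.const none).to₂) ?_
  refine Primrec.sumCasesOn Primrec.snd ((Primrec.const none).to₂)
    ((Primrec.option_some.comp
      (Primrec.fst.comp (Primrec.snd.comp (Primrec.snd.comp Primrec.snd)))).to₂)

end fields

theorem meet_iff {V Wt : Type} [DecidableEq V] [DecidableEq Wt] (c : V ⊕ Wt → V ⊕ Wt → ℕ)
    (g : W Wt) (v : V) (w : Wt) (s : Option (Syl V Wt)) :
    ((kd s = 1 ∧ (inz c w (inv g ++ gO s) ∨ (some v = vO s ∧
        ∃ w', w' ≠ w ∧ c (.inl v) (.inr w') ≠ 0 ∧ inzz c w w' (inv g ++ gO s)))) ∨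
      ((kd s = 2 ∧ inz c w (inv g ++ gO s)) ∨
      (kd s = 3 ∧ (some v = vO s ∧ ∃ w', some w' = wO s ∧ (w' ≠ w ∧
        inzz c w w' (inv g ++ gO s)))))) ↔ MeetL c g v w s := by
  match s with
  | none => simp [kd, MeetL]
  | some (.inl (g', v', x, y)) => simp [kd, gO, vO, MeetL]
  | some (.inr (.inl (g', x))) => simp [kd, gO, MeetL]
  | some (.inr (.inr (g', v', w', x))) => simp [kd, gO, vO, wO, MeetL]

section words

variable {a b : ℕ} (c : Fin a ⊕ Fin b → Fin a ⊕ Fin b → ℕ) {α : Type} [Primcodable α]

theorem cp_inz (hB : S_BAS) (hT : ComputablePred (Triv (cW c))) {w : α → Fin b}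
    {u : α → W (Fin b)} (hw : Computable w) (hu : Computable u) :
    ComputablePred (fun x => inz c (w x) (u x)) := by
  have h1 : Computable (fun x => u x ++ inv (fil (w x) (u x))) :=
    (Primrec.list_append.to_comp).comp hu ((hB b).1.comp ((hB b).2.1.comp (hw.pair hu)))
  exact cp_comp hT h1

theorem cp_inzz (hB : S_BAS) (hT : ComputablePred (Triv (cW c))) {w w' : α → Fin b}
    {u : α → W (Fin b)} (hw : Computable w) (hw' : Computable w') (hu : Computable u) :
    ComputablePred (fun x => inzz c (w x) (w' x) (u x)) := by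
  have h1 : Computable (fun x => inv (fil (w x) (u x)) ++ u x ++ inv (fil (w' x) (u x))) :=
    (Primrec.list_append.to_comp).comp
      ((Primrec.list_append.to_comp).comp ((hB b).1.comp ((hB b).2.1.comp (hw.pair hu))) hu)
      ((hB b).1.comp ((hB b).2.1.comp (hw'.pair hu)))
  exact cp_comp hT h1

end words

theorem t_MEETC (hB : S_BAS) (hP : S_CP) : S_MEETC := by
  intro a b c hT
  obtain ⟨hand, hor, -, hex⟩ := hP ((W (Fin b) × Fin a × Fin b) × Option (Syl (Fin a) (Fin b)))
    inferInstance b
  have hg : Computable (fun p : (W (Fin b) × Fin a × Fin b) ×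
      Option (Syl (Fin a) (Fin b)) => p.1.1) := Computable.fst.comp Computable.fst
  have hv : Computable (fun p : (W (Fin b) × Fin a × Fin b) ×
      Option (Syl (Fin a) (Fin b)) => p.1.2.1) :=
    Computable.fst.comp (Computable.snd.comp Computable.fst)
  have hw : Computable (fun p : (W (Fin b) × Fin a × Fin b) ×
      Option (Syl (Fin a) (Fin b)) => p.1.2.2) :=
    Computable.snd.comp (Computable.snd.comp Computable.fst)
  have hkd : Computable (fun p : (W (Fin b) × Fin a × Fin b) ×
      Option (Syl (Fin a) (Fin b)) => kd p.2) := kd_prim.to_comp.comp Computable.snd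
  have hgO : Computable (fun p : (W (Fin b) × Fin a × Fin b) ×
      Option (Syl (Fin a) (Fin b)) => gO p.2) := gO_prim.to_comp.comp Computable.snd
  have hvO : Computable (fun p : (W (Fin b) × Fin a × Fin b) ×
      Option (Syl (Fin a) (Fin b)) => vO p.2) := vO_prim.to_comp.comp Computable.snd
  have hwO : Computable (fun p : (W (Fin b) × Fin a × Fin b) ×
      Option (Syl (Fin a) (Fin b)) => wO p.2) := wO_prim.to_comp.comp Computable.snd
  have hu : Computable (fun p : (W (Fin b) × Fin a × Fin b) ×
      Option (Syl (Fin a) (Fin b)) => inv p.1.1 ++ gO p.2) :=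
    (Primrec.list_append.to_comp).comp ((hB b).1.comp hg) hgO
  have hk : ∀ n : ℕ, ComputablePred (fun p : (W (Fin b) × Fin a × Fin b) ×
      Option (Syl (Fin a) (Fin b)) => kd p.2 = n) := fun n => cp_eq hkd (Computable.const n)
  have hveq : ComputablePred (fun p : (W (Fin b) × Fin a × Fin b) ×
      Option (Syl (Fin a) (Fin b)) => some p.1.2.1 = vO p.2) :=
    cp_eq (Computable.option_some.comp hv) hvO
  have hne : ∀ w' : Fin b, ComputablePred (fun p : (W (Fin b) × Fin a × Fin b) ×
      Option (Syl (Fin a) (Fin b)) => w' ≠ p.1.2.2) := fun w' =>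
    cp_not (cp_eq (Computable.const w') hw)
  have hc : ∀ w' : Fin b, ComputablePred (fun p : (W (Fin b) × Fin a × Fin b) ×
      Option (Syl (Fin a) (Fin b)) => c (.inl p.1.2.1) (.inr w') ≠ 0) := fun w' =>
    cp_not (cp_eq (f := fun p : (W (Fin b) × Fin a × Fin b) ×
      Option (Syl (Fin a) (Fin b)) => c (.inl p.1.2.1) (.inr w'))
      ((Primrec.dom_finite (fun v : Fin a => c (.inl v) (.inr w'))).to_comp.comp hv)
      (Computable.const 0))
  have hz : ComputablePred (fun p : (W (Fin b) × Fin a × Fin b) ×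
      Option (Syl (Fin a) (Fin b)) => inz c p.1.2.2 (inv p.1.1 ++ gO p.2)) :=
    cp_inz c hB hT hw hu
  have hzz : ∀ w' : Fin b, ComputablePred (fun p : (W (Fin b) × Fin a × Fin b) ×
      Option (Syl (Fin a) (Fin b)) => inzz c p.1.2.2 w' (inv p.1.1 ++ gO p.2)) := fun w' =>
    cp_inzz c hB hT hw (Computable.const w') hu
  have hweq : ∀ w' : Fin b, ComputablePred (fun p : (W (Fin b) × Fin a × Fin b) ×
      Option (Syl (Fin a) (Fin b)) => some w' = wO p.2) := fun w' =>
    cp_eq (Computable.const (some w')) hwO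
  refine cp_iff ?_ (fun p => meet_iff c p.1.1 p.1.2.1 p.1.2.2 p.2)
  refine hor _ _ (hand _ _ (hk 1) (hor _ _ hz (hand _ _ hveq (hex _ fun w' =>
    hand _ _ (hne w') (hand _ _ (hc w') (hzz w')))))) (hor _ _ (hand _ _ (hk 2) hz)
    (hand _ _ (hk 3) (hand _ _ hveq (hex _ fun w' =>
      hand _ _ (hweq w') (hand _ _ (hne w') (hzz w'))))))

end Pool.Agent.H364R2.EA
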